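import Pool.Agent.Helper42.LS.Defs

open Filter Topology

namespace Pool.Agent.Helper42.LS

/-! ### the function `t ↦ 1 / 6 - B2 t` -/

theorem rs_g_of_nonneg {t : ℝ} (h0 : 0 ≤ t) (h1 : t < 1) : 1 / 6 - B2 t = t * (1 - t) := by
  have : Int.fract t = t := Int.fract_eq_self.2 ⟨h0, h1⟩
  rw [B2, this]; ring

theorem rs_g_of_neg {t : ℝ} (h0 : -1 ≤ t) (h1 : t < 0) : 1 / 6 - B2 t = -t * (1 + t) := by
  have h2 : Int.fract t = 1 + t := by
    have h3 : Int.fract (t + 1) = Int.fract t := Int.fract_add_one t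
    have h4 : Int.fract (t + 1) = t + 1 := Int.fract_eq_self.2 ⟨by linarith, by linarith⟩
    rw [← h3, h4]; ring
  rw [B2, h2]; ring

theorem rs_g_abs {t : ℝ} (h : |t| ≤ 1) : 1 / 6 - B2 t = |t| * (1 - |t|) := by
  rcases lt_trichotomy t 0 with h0 | h0 | h0
  · rw [abs_of_neg h0]
    rw [abs_of_neg h0] at h
    rw [rs_g_of_neg (by linarith) h0]; ring
  · subst h0
    rw [rs_g_of_nonneg le_rfl one_pos]; simp
  · rw [abs_of_pos h0]
    rw [abs_of_pos h0] at h
    rcases lt_or_eq_of_le h with h1 | h1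
    · exact rs_g_of_nonneg h0.le h1
    · subst h1
      rw [B2]; simp

theorem rs_B2_zero : B2 0 = 1 / 6 := by simp [B2]

/-- module `RS` -/
theorem st_RS (hRT : ST_RT) (hRC : ST_RC) (hRB : ST_RB2) : ST_RS := by
  obtain ⟨C₁, hRT⟩ := hRT
  set C : ℝ := max C₁ 0 with hC
  have hC0 : 0 ≤ C := le_max_right _ _
  refine ⟨8 * C + 5, ?_⟩
  intro κ hκ hκ1 Z Y hG hZ0 hZ1
  set W : ℝ := -Real.log |κ| with hW
  have hκpos : 0 < |κ| := abs_pos.2 hκ
  have hWpos : 0 < W := by
    have : Real.log |κ| < 0 := Real.log_neg hκpos (by linarith)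
    linarith
  have hT : ∀ k l : ℕ, 1 ≤ k → 1 ≤ l →
      ∃ m : ℤ, |Tor (Z (k + l)) (Y (k + l)) - Tor (Z k) (Y k) - Tor (Z l) (Y l) - m * W| ≤ C := by
    intro k l hk hl
    obtain ⟨m, hm⟩ := hRT κ hκ hκ1 Z Y hG hZ0 hZ1 k l hk hl
    exact ⟨m, hm.trans (le_max_left _ _)⟩
  -- the sizes
  let M : ℕ → ℝ := fun k => Msz (Z k) (Y k)
  let α : ℕ → ℝ := fun k => max 0 (-Real.log (M k))
  have hα0 : ∀ k, 0 ≤ α k := fun k => le_max_left _ _
  have hTα : ∀ k, |Tor (Z k) (Y k)| = α k := by
    intro k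
    simp only [Tor]
    split_ifs with h
    · exact abs_of_nonneg (hα0 k)
    · rw [abs_neg]; exact abs_of_nonneg (hα0 k)
  -- squares
  have hcurve : ∀ k, 1 ≤ k → (Y k / Z k) ^ 2 = (Z k - 1) ^ 2 / Z k - κ := by
    intro k hk
    have h1 := hG.curve k hk
    have h2 := (hZ0 k hk).ne'
    rw [div_pow, h1]
    field_simp
    ring
  have hM1 : ∀ k, 1 ≤ k → (Z k - 1) ^ 2 / Z k ≤ M k ^ 2 := by
    intro k hk
    have hz := hZ0 k hk
    have h1 : |Z k - 1| / √(Z k) ≤ M k := le_max_left _ _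
    have h2 : (|Z k - 1| / √(Z k)) ^ 2 = (Z k - 1) ^ 2 / Z k := by
      rw [div_pow, sq_abs, Real.sq_sqrt hz.le]
    rw [← h2]
    exact pow_le_pow_left₀ (by positivity) h1 2
  have hM2 : ∀ k, 1 ≤ k → (Y k / Z k) ^ 2 ≤ M k ^ 2 := by
    intro k hk
    have hz := hZ0 k hk
    have h1 : |Y k| / Z k ≤ M k := le_max_right _ _
    have h2 : (|Y k| / Z k) ^ 2 = (Y k / Z k) ^ 2 := by
      rw [div_pow, sq_abs, div_pow]
    rw [← h2]
    exact pow_le_pow_left₀ (by positivity) h1 2
  have hMeq : ∀ k, 1 ≤ k → M k ^ 2 = max ((Z k - 1) ^ 2 / Z k) ((Y k / Z k) ^ 2) := by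
    intro k hk
    refine le_antisymm ?_ (max_le (hM1 k hk) (hM2 k hk))
    have hz := hZ0 k hk
    rcases max_choice (|Z k - 1| / √(Z k)) (|Y k| / Z k) with h | h
    · have h2 : M k = |Z k - 1| / √(Z k) := h
      rw [h2, div_pow, sq_abs, Real.sq_sqrt hz.le]
      exact le_max_left _ _
    · have h2 : M k = |Y k| / Z k := h
      rw [h2, div_pow, sq_abs, ← div_pow]
      exact le_max_right _ _
  have hMpos : ∀ k, 1 ≤ k → 0 < M k := by
    intro k hk
    have h1 : 0 < |Y k| / Z k := div_pos (abs_pos.2 (hG.yne k hk)) (hZ0 k hk)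
    exact h1.trans_le (le_max_right _ _)
  have hMκ : ∀ k, 1 ≤ k → |κ| ≤ M k ^ 2 := by
    intro k hk
    have h1 := hcurve k hk
    have h2 := hM1 k hk
    have h3 := hM2 k hk
    have h4 : 0 ≤ (Z k - 1) ^ 2 / Z k := div_nonneg (sq_nonneg _) (hZ0 k hk).le
    have h5 : 0 ≤ (Y k / Z k) ^ 2 := sq_nonneg _
    rcases abs_cases κ with ⟨h, -⟩ | ⟨h, -⟩ <;> rw [h] <;> linarith
  have hαW : ∀ k, 1 ≤ k → α k ≤ W / 2 := by
    intro k hk
    refine max_le (by linarith) ?_
    have h1 : Real.log |κ| ≤ 2 * Real.log (M k) := by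
      have := Real.log_le_log hκpos (hMκ k hk)
      rwa [Real.log_pow, Nat.cast_ofNat] at this
    linarith
  have hTW : ∀ k, 1 ≤ k → |Tor (Z k) (Y k) / W| ≤ 1 / 2 := by
    intro k hk
    rw [abs_div, hTα, abs_of_pos hWpos, div_le_iff₀ hWpos]
    linarith [hαW k hk]
  let f : ℕ → ℝ := fun k => α k * (W - α k) / W
  have hf : ∀ k, 1 ≤ k → f k = W * (1 / 6 - B2 (Tor (Z k) (Y k) / W)) := by
    intro k hk
    have h1 := hTW k hk
    rw [rs_g_abs (by linarith), abs_div, hTα, abs_of_pos hWpos]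
    simp only [f]
    field_simp
  have hf0 : ∀ k, 1 ≤ k → 0 ≤ f k := by
    intro k hk
    have h1 := hα0 k
    have h2 := hαW k hk
    have h3 : 0 ≤ W - α k := by linarith
    exact div_nonneg (mul_nonneg h1 h3) hWpos.le
  have hlog0 : ∀ k, 0 ≤ Real.log (max (Z k) 1) := fun k => Real.log_nonneg (le_max_right _ _)
  -- Lipschitz comparison
  have hlip : ∀ (k : ℕ) (s : ℝ) (m : ℤ), 1 ≤ k → ∀ D : ℝ, |Tor (Z k) (Y k) - s * W - m * W| ≤ D →
      |f k - W * (1 / 6 - B2 s)| ≤ D := by
    intro k s m hk D hD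
    rw [hf k hk]
    have h1 := hRB (Tor (Z k) (Y k) / W) s m
    have h2 : W * (1 / 6 - B2 (Tor (Z k) (Y k) / W)) - W * (1 / 6 - B2 s) =
        -(W * (B2 (Tor (Z k) (Y k) / W) - B2 s)) := by ring
    rw [h2, abs_neg, abs_mul, abs_of_pos hWpos]
    have h3 : Tor (Z k) (Y k) / W - s - m = (Tor (Z k) (Y k) - s * W - m * W) / W := by
      field_simp
    rw [h3, abs_div, abs_of_pos hWpos] at h1
    calc W * |B2 (Tor (Z k) (Y k) / W) - B2 s|
        ≤ W * (|Tor (Z k) (Y k) - s * W - m * W| / W) := by gcongr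
      _ = |Tor (Z k) (Y k) - s * W - m * W| := by field_simp
      _ ≤ D := hD
  -- stability
  obtain ⟨τ', hτ⟩ := hRC W C hWpos hC0 (fun k => Tor (Z k) (Y k)) (fun k hk => by
      rw [hTα]; linarith [hαW k hk]) hT
  refine ⟨fun k => Real.log (max (Z k) 1) - f k, τ' / W, ?_, ?_, ?_⟩
  · intro k hk
    have h2k : 1 ≤ 2 * k := by omega
    have hz := hZ0 k hk
    have hy := hG.yne k hk
    set Zk := Z k with hZk
    set Yk := Y k with hYk
    -- the double
    have hcv : Yk ^ 2 = Zk ^ 3 - (2 + κ) * Zk ^ 2 + Zk := by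
      have := hG.curve k hk
      rw [← hZk, ← hYk] at this
      rw [this]; ring
    have hZ2 : Z (2 * k) = (Zk ^ 2 - 1) ^ 2 / (4 * Yk ^ 2) := by
      rw [hG.dblx k hk, ← hZk, ← hYk]
      have hy2 : Yk ^ 2 ≠ 0 := pow_ne_zero 2 hy
      rw [div_pow, mul_pow]
      rw [eq_div_iff (by positivity)]
      have : (4 : ℝ) * Yk ^ 2 ≠ 0 := by positivity
      have e : ((3 * Zk ^ 2 + 2 * -(2 + κ) * Zk + 1) ^ 2 / (2 ^ 2 * Yk ^ 2) - -(2 + κ) - 2 * Zk) *
          (4 * Yk ^ 2) = (3 * Zk ^ 2 + 2 * -(2 + κ) * Zk + 1) ^ 2 +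
          ((2 + κ) - 2 * Zk) * (4 * Yk ^ 2) := by
        field_simp
        ring
      rw [e, hcv]
      ring
    set S2 : ℝ := (Zk - 1) ^ 2 / Zk with hS2
    set n2 : ℝ := (Yk / Zk) ^ 2 with hn2
    have hn2' : n2 = S2 - κ := hcurve k hk
    have hS20 : 0 ≤ S2 := div_nonneg (sq_nonneg _) hz.le
    have hn20 : 0 < n2 := by positivity
    have e1 : (Zk ^ 2 - 1) ^ 2 = Zk ^ 2 * (S2 * (S2 + 4)) := by
      rw [hS2]; field_simp; ring
    have e2 : 4 * Yk ^ 2 = Zk ^ 2 * (4 * n2) := by
      rw [hn2]; field_simp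
    have hmaxpos : 0 < max (S2 * (S2 + 4)) (4 * n2) := lt_max_of_lt_right (by positivity)
    have hL : Real.log (max (Z (2 * k)) 1) + Real.log (4 * Yk ^ 2) =
        2 * Real.log Zk + Real.log (max (S2 * (S2 + 4)) (4 * n2)) := by
      have h4Y : 0 < 4 * Yk ^ 2 := by positivity
      rw [← Real.log_mul (by positivity) h4Y.ne', max_mul_of_nonneg _ _ h4Y.le, hZ2,
        div_mul_cancel₀ _ h4Y.ne', one_mul, e1, e2, ← mul_max_of_nonneg _ _ (by positivity),
        Real.log_mul (by positivity) hmaxpos.ne', Real.log_pow]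
      norm_num
    -- size of `Z`
    have hZmax : 4 * Real.log (max Zk 1) - 2 * Real.log Zk ≤ 2 * Real.log (S2 + 2) := by
      have h1 : S2 + 2 = Zk + 1 / Zk := by rw [hS2]; field_simp; ring
      have h2 : 0 < 1 / Zk := by positivity
      rcases le_total Zk 1 with h | h
      · rw [max_eq_right h, Real.log_one]
        have h3 : Real.log (1 / Zk) ≤ Real.log (S2 + 2) :=
          Real.log_le_log h2 (by rw [h1]; linarith)
        rw [one_div, Real.log_inv] at h3
        linarith
      · rw [max_eq_left h]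
        have h3 : Real.log Zk ≤ Real.log (S2 + 2) :=
          Real.log_le_log hz (by rw [h1]; linarith)
        linarith
    suffices hmain : 2 * Real.log (S2 + 2) - 4 * f k - (8 * C + 5) ≤
        Real.log (max (S2 * (S2 + 4)) (4 * n2)) - f (2 * k) by
      change 4 * (Real.log (max Zk 1) - f k) - (8 * C + 5) ≤
        Real.log (max (Z (2 * k)) 1) - f (2 * k) + Real.log (4 * Yk ^ 2)
      linarith
    obtain ⟨m, hm⟩ := hT k k hk hk
    rw [← two_mul] at hm
    have hMk : M k ^ 2 = max S2 n2 := hMeq k hk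
    rcases le_or_gt 1 (M k) with h1 | h1
    · -- far from the node
      have hαk : α k = 0 := by
        have : 0 ≤ Real.log (M k) := Real.log_nonneg h1
        exact max_eq_left (by linarith)
      have hTk : Tor (Z k) (Y k) = 0 := by
        have := hTα k
        rw [hαk] at this
        exact abs_eq_zero.1 this
      rw [hTk] at hm
      have h2 := hlip (2 * k) 0 m h2k C (by
        have e : Tor (Z (2 * k)) (Y (2 * k)) - 0 * W - m * W =
          Tor (Z (2 * k)) (Y (2 * k)) - 0 - 0 - m * W := by ring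
        rw [e]; exact hm)
      rw [rs_B2_zero, sub_self, mul_zero, sub_zero] at h2
      have h3 : f (2 * k) ≤ C := (le_abs_self _).trans h2
      have hS : 99 / 100 ≤ S2 := by
        have h4 : 1 ≤ max S2 n2 := by rw [← hMk]; nlinarith
        rcases le_max_iff.1 h4 with h5 | h5
        · linarith
        · have := abs_le.1 hκ1
          linarith
      have h4 : (S2 + 2) ^ 2 / 2 ≤ S2 * (S2 + 4) := by nlinarith
      have h5 : Real.log ((S2 + 2) ^ 2 / 2) ≤ Real.log (max (S2 * (S2 + 4)) (4 * n2)) :=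
        Real.log_le_log (by positivity) (h4.trans (le_max_left _ _))
      rw [Real.log_div (by positivity) (by norm_num), Real.log_pow] at h5
      have h6 : Real.log 2 ≤ 1 := by
        have := Real.log_two_lt_d9
        linarith
      have h7 := hf0 k hk
      push_cast at h5
      linarith
    · -- near the node
      have hlogM : Real.log (M k) < 0 := Real.log_neg (hMpos k hk) h1
      have hαk : α k = -Real.log (M k) := max_eq_right (by linarith)
      have hS1 : S2 ≤ 1 := by
        have h2 : S2 ≤ M k ^ 2 := by rw [hMk]; exact le_max_left _ _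
        have h3 : M k ^ 2 ≤ 1 := by
          have := hMpos k hk
          nlinarith
        linarith
      -- lower bound for the logarithm
      have h2 : 4 * M k ^ 2 ≤ max (S2 * (S2 + 4)) (4 * n2) := by
        rw [hMk]
        rcases max_choice S2 n2 with h3 | h3
        · rw [h3]
          refine le_trans ?_ (le_max_left _ _)
          nlinarith
        · rw [h3]
          exact le_max_right _ _
      have h3 : Real.log 4 + 2 * Real.log (M k) ≤ Real.log (max (S2 * (S2 + 4)) (4 * n2)) := by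
        have h4 := Real.log_le_log (by have := hMpos k hk; positivity) h2
        rw [Real.log_mul (by norm_num) (by have := hMpos k hk; positivity), Real.log_pow] at h4
        push_cast at h4
        exact h4
      -- the double
      have h4 := hlip (2 * k) (2 * (Tor (Z k) (Y k) / W)) m h2k C (by
        have e : Tor (Z (2 * k)) (Y (2 * k)) - 2 * (Tor (Z k) (Y k) / W) * W - m * W =
            Tor (Z (2 * k)) (Y (2 * k)) - Tor (Z k) (Y k) - Tor (Z k) (Y k) - m * W := by
          field_simp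
          ring
        rw [e]; exact hm)
      have h5 := hTW k hk
      have h6 : |2 * (Tor (Z k) (Y k) / W)| = 2 * (α k / W) := by
        rw [abs_mul, abs_div, hTα, abs_of_pos hWpos, abs_of_pos two_pos]
      have h7 : |2 * (Tor (Z k) (Y k) / W)| ≤ 1 := by
        rw [abs_mul, abs_of_pos two_pos]; linarith
      rw [rs_g_abs h7, h6] at h4
      have h8 : f (2 * k) ≤ W * (2 * (α k / W) * (1 - 2 * (α k / W))) + C := by
        have := (le_abs_self _).trans h4
        linarith
      have h9 : W * (2 * (α k / W) * (1 - 2 * (α k / W))) = 4 * f k - 2 * α k := by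
        simp only [f]
        field_simp
        ring
      have h10 : Real.log (S2 + 2) ≤ Real.log 3 := Real.log_le_log (by positivity) (by linarith)
      have h11 : Real.log 3 ≤ 2 := by
        have := Real.log_le_sub_one_of_pos (show (0 : ℝ) < 3 by norm_num)
        linarith
      have h12 : 0 ≤ Real.log 4 := Real.log_nonneg (by norm_num)
      rw [h9] at h8
      have hα' : Real.log (M k) = -α k := by rw [hαk]; ring
      rw [hα'] at h3
      linarith
  · intro k hk
    have := hf0 k hk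
    linarith
  · intro k hk
    obtain ⟨m, hm⟩ := hτ k hk
    have h1 := hlip k (k * (τ' / W)) m hk (8 * C) (by
      have e : Tor (Z k) (Y k) - k * (τ' / W) * W - m * W = Tor (Z k) (Y k) - k * τ' - m * W := by
        field_simp
      rw [e]; exact hm)
    have h2 : f k ≤ W * (1 / 6 - B2 (k * (τ' / W))) + 8 * C := by
      have := (le_abs_self _).trans h1
      linarith
    have h3 := hlog0 k
    have h4 : W * (B2 (k * (τ' / W)) - 1 / 6) = -(W * (1 / 6 - B2 (k * (τ' / W)))) := by ring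
    rw [h4]
    linarith

end Pool.Agent.Helper42.LS
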