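import Pool.Agent.Helper42.LS.Defs

open Filter Topology

namespace Pool.Agent.Helper42.LS

/-- addition of points on the split nodal model -/
def rtAdd (κ Z₁ Y₁ Z₂ Y₂ Z₃ Y₃ : ℝ) : Prop := ∃ l : ℝ,
  ((Z₁ ≠ Z₂ ∧ l * (Z₁ - Z₂) = Y₁ - Y₂) ∨
    (Z₁ = Z₂ ∧ Y₁ = Y₂ ∧ l * (2 * Y₁) = 3 * Z₁ ^ 2 - 2 * (2 + κ) * Z₁ + 1)) ∧
  Z₃ = l ^ 2 + (2 + κ) - Z₁ - Z₂ ∧ Y₃ = -(l * (Z₃ - Z₁) + Y₁)

theorem rt_add_neg {κ Z₁ Y₁ Z₂ Y₂ Z₃ Y₃ : ℝ} (h : rtAdd κ Z₁ Y₁ Z₂ Y₂ Z₃ Y₃) :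
    rtAdd κ Z₁ (-Y₁) Z₂ (-Y₂) Z₃ (-Y₃) := by
  obtain ⟨l, h1, h2, h3⟩ := h
  refine ⟨-l, ?_, ?_, ?_⟩
  · rcases h1 with ⟨h4, h5⟩ | ⟨h4, h5, h6⟩
    · exact Or.inl ⟨h4, by linarith⟩
    · exact Or.inr ⟨h4, by linarith, by linarith⟩
  · rw [h2]; ring
  · rw [h3]; ring

/-- the logarithmic distance of the opposite point -/
theorem rt_neg {κ Z Y : ℝ} (hκ : κ ≠ 0) (hκ1 : |κ| ≤ 1 / 100) (hY : Y ≠ 0)
    (hc : Y ^ 2 = Z ^ 3 - (2 + κ) * Z ^ 2 + Z) :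
    ∃ m : ℤ, Tor Z (-Y) = -Tor Z Y + m * (-Real.log |κ|) := by
  have hM : Msz Z (-Y) = Msz Z Y := by simp [Msz]
  by_cases hZ : Z = 1
  · refine ⟨1, ?_⟩
    subst hZ
    have h1 : Y ^ 2 = -κ := by rw [hc]; ring
    have h2 : |Y| ^ 2 = |κ| := by
      rw [← abs_pow, h1, abs_neg]
    have h3 : 0 < |Y| := abs_pos.2 hY
    have h4 : Real.log |κ| = 2 * Real.log |Y| := by
      rw [← h2, Real.log_pow]; norm_num
    have h5 : Real.log |κ| ≤ 0 := by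
      apply Real.log_nonpos (abs_nonneg _)
      linarith
    have h6 : Msz 1 Y = |Y| := by
      simp [Msz]
    have h7 : Tor 1 Y = -Real.log |Y| := by
      simp only [Tor, h6, sub_self, zero_mul, le_refl, if_true]
      rw [max_eq_right]
      linarith
    have h8 : Tor 1 (-Y) = -Real.log |Y| := by
      simp only [Tor, hM, h6, sub_self, zero_mul, le_refl, if_true]
      rw [max_eq_right]
      linarith
    rw [h7, h8, h4]
    push_cast
    ring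
  · refine ⟨0, ?_⟩
    have hne : (Z - 1) * Y ≠ 0 := mul_ne_zero (sub_ne_zero.2 hZ) hY
    rcases lt_or_gt_of_ne hne with h | h
    · have h1 : ¬ (0 ≤ (Z - 1) * Y) := not_le.2 h
      have h2 : 0 ≤ (Z - 1) * (-Y) := by linarith
      simp only [Tor, hM]
      rw [if_pos h2, if_neg h1]
      simp
    · have h1 : 0 ≤ (Z - 1) * Y := h.le
      have h2 : ¬ (0 ≤ (Z - 1) * (-Y)) := by linarith
      simp only [Tor, hM]
      rw [if_neg h2, if_pos h1]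
      simp

/-- module `RT` -/
theorem st_RT (hRA : ST_RA) : ST_RT := by
  obtain ⟨C₀, hRA⟩ := hRA
  refine ⟨C₀, ?_⟩
  intro κ hκ hκ1 Z Y hG hZ0 hZ1
  set W : ℝ := -Real.log |κ| with hW
  -- facts on the points
  have hcurve : ∀ k, 1 ≤ k → Y k ^ 2 = Z k ^ 3 - (2 + κ) * Z k ^ 2 + Z k := by
    intro k hk
    rw [hG.curve k hk]; ring
  have hcurve' : ∀ k, 1 ≤ k → (-Y k) ^ 2 = Z k ^ 3 - (2 + κ) * Z k ^ 2 + Z k := by
    intro k hk
    rw [← hcurve k hk]; ring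
  have hy0 : ∀ k, 1 ≤ k → Y k ≠ 0 := hG.yne
  have hy0' : ∀ k, 1 ≤ k → -Y k ≠ 0 := fun k hk => neg_ne_zero.2 (hG.yne k hk)
  have hneg : ∀ k, 1 ≤ k → ∃ m : ℤ, Tor (Z k) (-Y k) = -Tor (Z k) (Y k) + m * W := fun k hk =>
    rt_neg hκ hκ1 (hy0 k hk) (hcurve k hk)
  -- the rule for positive points
  have key : ∀ a b c : ℕ, 1 ≤ a → 1 ≤ b → 1 ≤ c → ∀ ya yb yc : ℝ, (ya = Y a ∨ ya = -Y a) →
      (yb = Y b ∨ yb = -Y b) → (yc = Y c ∨ yc = -Y c) → rtAdd κ (Z a) ya (Z b) yb (Z c) yc →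
      0 ≤ (Z a - 1) * ya → 0 ≤ (Z b - 1) * yb →
      ∃ m : ℤ, |Tor (Z c) yc - Tor (Z a) ya - Tor (Z b) yb - m * W| ≤ C₀ := by
    intro a b c ha hb hc ya yb yc hya hyb hyc hadd hpa hpb
    obtain ⟨l, h1, h2, h3⟩ := hadd
    have e1 : ∀ k, 1 ≤ k → ∀ yk, (yk = Y k ∨ yk = -Y k) → yk ≠ 0 ∧
        yk ^ 2 = Z k ^ 3 - (2 + κ) * Z k ^ 2 + Z k := by
      intro k hk yk h
      rcases h with h | h
      · rw [h]; exact ⟨hy0 k hk, hcurve k hk⟩
      · rw [h]; exact ⟨hy0' k hk, hcurve' k hk⟩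
    exact hRA κ hκ hκ1 (Z a) ya (Z b) yb (Z c) yc l (hZ0 a ha) (hZ0 b hb) (hZ0 c hc)
      (fun h => ⟨hZ1 h a ha, hZ1 h b hb, hZ1 h c hc⟩) (e1 a ha ya hya).1 (e1 b hb yb hyb).1
      (e1 c hc yc hyc).1 (e1 a ha ya hya).2 (e1 b hb yb hyb).2 h1 h2 h3 hpa hpb
  -- addition laws
  have hdbl : ∀ k, 1 ≤ k → rtAdd κ (Z k) (Y k) (Z k) (Y k) (Z (2 * k)) (Y (2 * k)) := by
    intro k hk
    have h2Y : 2 * Y k ≠ 0 := mul_ne_zero two_ne_zero (hy0 k hk)
    refine ⟨(3 * Z k ^ 2 + 2 * (-(2 + κ)) * Z k + 1) / (2 * Y k), Or.inr ⟨rfl, rfl, ?_⟩, ?_, ?_⟩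
    · rw [div_mul_cancel₀ _ h2Y]; ring
    · rw [hG.dblx k hk]; ring
    · rw [hG.dbly k hk]
  have hsum : ∀ k l, 1 ≤ l → l < k →
      rtAdd κ (Z k) (Y k) (Z l) (Y l) (Z (k + l)) (Y (k + l)) := by
    intro k l hl hlk
    have hne := hG.xne k l hl hlk
    refine ⟨(Y k - Y l) / (Z k - Z l), Or.inl ⟨hne, div_mul_cancel₀ _ (sub_ne_zero.2 hne)⟩, ?_, ?_⟩
    · rw [hG.addx k l hl hlk]; ring
    · rw [hG.addy k l hl hlk]
  have hdiff : ∀ k l, 1 ≤ l → l < k →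
      rtAdd κ (Z k) (Y k) (Z l) (-Y l) (Z (k - l)) (Y (k - l)) := by
    intro k l hl hlk
    have hne := hG.xne k l hl hlk
    refine ⟨(Y k + Y l) / (Z k - Z l), Or.inl ⟨hne, ?_⟩, ?_, ?_⟩
    · rw [div_mul_cancel₀ _ (sub_ne_zero.2 hne)]; ring
    · rw [hG.subx k l hl hlk]; ring
    · rw [hG.suby k l hl hlk]
  have hpos : ∀ k, ¬ (0 ≤ (Z k - 1) * Y k) → 0 ≤ (Z k - 1) * (-Y k) := by
    intro k h
    have := not_le.1 h
    linarith
  -- the main case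
  have main : ∀ k l : ℕ, 1 ≤ l → l < k →
      ∃ m : ℤ, |Tor (Z (k + l)) (Y (k + l)) - Tor (Z k) (Y k) - Tor (Z l) (Y l) - m * W| ≤ C₀ := by
    intro k l hl hlk
    have hk : 1 ≤ k := hl.trans hlk.le
    have hkl : 1 ≤ k + l := hk.trans (Nat.le_add_right k l)
    obtain ⟨mk, hmk⟩ := hneg k hk
    obtain ⟨ml, hml⟩ := hneg l hl
    obtain ⟨mr, hmr⟩ := hneg (k + l) hkl
    have hRQ : rtAdd κ (Z (k + l)) (Y (k + l)) (Z l) (-Y l) (Z k) (Y k) := by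
      have := hdiff (k + l) l hl (by omega)
      rwa [Nat.add_sub_cancel] at this
    have hRP : rtAdd κ (Z (k + l)) (Y (k + l)) (Z k) (-Y k) (Z l) (Y l) := by
      have := hdiff (k + l) k hk (by omega)
      rwa [Nat.add_sub_cancel_left] at this
    by_cases hP : 0 ≤ (Z k - 1) * Y k
    · by_cases hQ : 0 ≤ (Z l - 1) * Y l
      · exact key k l (k + l) hk hl hkl _ _ _ (Or.inl rfl) (Or.inl rfl) (Or.inl rfl)
          (hsum k l hl hlk) hP hQ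
      · by_cases hR : 0 ≤ (Z (k + l) - 1) * Y (k + l)
        · obtain ⟨m, hm⟩ := key (k + l) l k hkl hl hk _ _ _ (Or.inl rfl) (Or.inr rfl) (Or.inl rfl)
            hRQ hR (hpos l hQ)
          refine ⟨-m - ml, ?_⟩
          rw [hml] at hm
          rw [← abs_neg]
          have e : -(Tor (Z (k + l)) (Y (k + l)) - Tor (Z k) (Y k) - Tor (Z l) (Y l) -
              ((-m - ml : ℤ) : ℝ) * W) = Tor (Z k) (Y k) - Tor (Z (k + l)) (Y (k + l)) -
              (-Tor (Z l) (Y l) + ml * W) - m * W := by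
            push_cast; ring
          rw [e]
          exact hm
        · have h1 := rt_add_neg hRP
          rw [neg_neg] at h1
          obtain ⟨m, hm⟩ := key (k + l) k l hkl hk hl _ _ _ (Or.inr rfl) (Or.inl rfl) (Or.inr rfl)
            h1 (hpos _ hR) hP
          refine ⟨m + mr - ml, ?_⟩
          rw [hml, hmr] at hm
          have e : Tor (Z (k + l)) (Y (k + l)) - Tor (Z k) (Y k) - Tor (Z l) (Y l) -
              ((m + mr - ml : ℤ) : ℝ) * W = -Tor (Z l) (Y l) + ml * W -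
              (-Tor (Z (k + l)) (Y (k + l)) + mr * W) - Tor (Z k) (Y k) - m * W := by
            push_cast; ring
          rw [e]
          exact hm
    · by_cases hQ : 0 ≤ (Z l - 1) * Y l
      · by_cases hR : 0 ≤ (Z (k + l) - 1) * Y (k + l)
        · obtain ⟨m, hm⟩ := key (k + l) k l hkl hk hl _ _ _ (Or.inl rfl) (Or.inr rfl) (Or.inl rfl)
            hRP hR (hpos k hP)
          refine ⟨-m - mk, ?_⟩
          rw [hmk] at hm
          rw [← abs_neg]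
          have e : -(Tor (Z (k + l)) (Y (k + l)) - Tor (Z k) (Y k) - Tor (Z l) (Y l) -
              ((-m - mk : ℤ) : ℝ) * W) = Tor (Z l) (Y l) - Tor (Z (k + l)) (Y (k + l)) -
              (-Tor (Z k) (Y k) + mk * W) - m * W := by
            push_cast; ring
          rw [e]
          exact hm
        · have h1 := rt_add_neg hRQ
          rw [neg_neg] at h1
          obtain ⟨m, hm⟩ := key (k + l) l k hkl hl hk _ _ _ (Or.inr rfl) (Or.inl rfl) (Or.inr rfl)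
            h1 (hpos _ hR) hQ
          refine ⟨m + mr - mk, ?_⟩
          rw [hmk, hmr] at hm
          have e : Tor (Z (k + l)) (Y (k + l)) - Tor (Z k) (Y k) - Tor (Z l) (Y l) -
              ((m + mr - mk : ℤ) : ℝ) * W = -Tor (Z k) (Y k) + mk * W -
              (-Tor (Z (k + l)) (Y (k + l)) + mr * W) - Tor (Z l) (Y l) - m * W := by
            push_cast; ring
          rw [e]
          exact hm
      · obtain ⟨m, hm⟩ := key k l (k + l) hk hl hkl _ _ _ (Or.inr rfl) (Or.inr rfl) (Or.inr rfl)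
          (rt_add_neg (hsum k l hl hlk)) (hpos k hP) (hpos l hQ)
        refine ⟨-m + mr - mk - ml, ?_⟩
        rw [hmk, hml, hmr] at hm
        rw [← abs_neg]
        have e : -(Tor (Z (k + l)) (Y (k + l)) - Tor (Z k) (Y k) - Tor (Z l) (Y l) -
            ((-m + mr - mk - ml : ℤ) : ℝ) * W) = -Tor (Z (k + l)) (Y (k + l)) + mr * W -
            (-Tor (Z k) (Y k) + mk * W) - (-Tor (Z l) (Y l) + ml * W) - m * W := by
          push_cast; ring
        rw [e]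
        exact hm
  intro k l hk hl
  rcases lt_trichotomy l k with h | h | h
  · exact main k l hl h
  · subst h
    have h2 : 1 ≤ 2 * l := by omega
    rw [← two_mul]
    by_cases hP : 0 ≤ (Z l - 1) * Y l
    · exact key l l (2 * l) hl hl h2 _ _ _ (Or.inl rfl) (Or.inl rfl) (Or.inl rfl)
        (hdbl l hl) hP hP
    · obtain ⟨ml, hml⟩ := hneg l hl
      obtain ⟨mr, hmr⟩ := hneg (2 * l) h2
      obtain ⟨m, hm⟩ := key l l (2 * l) hl hl h2 _ _ _ (Or.inr rfl) (Or.inr rfl) (Or.inr rfl)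
        (rt_add_neg (hdbl l hl)) (hpos l hP) (hpos l hP)
      refine ⟨-m + mr - ml - ml, ?_⟩
      rw [hml, hmr] at hm
      rw [← abs_neg]
      have e : -(Tor (Z (2 * l)) (Y (2 * l)) - Tor (Z l) (Y l) - Tor (Z l) (Y l) -
          ((-m + mr - ml - ml : ℤ) : ℝ) * W) = -Tor (Z (2 * l)) (Y (2 * l)) + mr * W -
          (-Tor (Z l) (Y l) + ml * W) - (-Tor (Z l) (Y l) + ml * W) - m * W := by
        push_cast; ring
      rw [e]
      exact hm
  · obtain ⟨m, hm⟩ := main l k hk h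
    refine ⟨m, ?_⟩
    rw [add_comm k l]
    have e : Tor (Z (l + k)) (Y (l + k)) - Tor (Z k) (Y k) - Tor (Z l) (Y l) - m * W =
      Tor (Z (l + k)) (Y (l + k)) - Tor (Z l) (Y l) - Tor (Z k) (Y k) - m * W := by ring
    rw [e]
    exact hm

end Pool.Agent.Helper42.LS
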